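import Pool.Agent.CB53.All

/-!
# Palindromic cubes of numbers with few distinct digits
-/

set_option autoImplicit false

namespace Pool.Agent.Results.MP_cbfe41_nt.FewDigits

open Pool.Agent.CB53

theorem getElem?_dg {n i : ℕ} (h : i < ln n) : (Nat.digits 10 n)[i]? = some (dg n i) := by
  have h1 : i < (Nat.digits 10 n).length := h
  rw [List.getElem?_eq_getElem h1, ← dg_eq_getD, List.getD_eq_getElem _ _ h1]

theorem getElem?_rev {n i : ℕ} (h : i < ln n) :
    (Nat.digits 10 n).reverse[i]? = some (dg n (ln n - 1 - i)) := by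
  have h1 : i < (Nat.digits 10 n).length := h
  have h2 : (Nat.digits 10 n).length = ln n := rfl
  rw [List.getElem?_reverse h1, h2]
  exact getElem?_dg (by omega)

theorem pal_dg {n : ℕ} (hc : (Nat.digits 10 n).reverse = Nat.digits 10 n) {i : ℕ}
    (h : i < ln n) : dg n i = dg n (ln n - 1 - i) := by
  have h1 := getElem?_dg h
  have h2 := getElem?_rev h
  rw [hc, h1] at h2
  exact Option.some.inj h2

theorem mem_take_of_getElem? {l : List ℕ} {i k x : ℕ} (hi : i < k) (h : l[i]? = some x) :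
    x ∈ (l.take k).toFinset := by
  rw [List.mem_toFinset, List.mem_iff_getElem?]
  exact ⟨i, by rw [List.getElem?_take_of_lt hi]; exact h⟩

theorem topS_sub {n k : ℕ} (hk : k ≤ ln n) :
    topS n k ⊆ ((Nat.digits 10 n).reverse.take k).toFinset := by
  intro x hx
  rw [topS, Finset.mem_image] at hx
  obtain ⟨i, hi, rfl⟩ := hx
  rw [Finset.mem_range] at hi
  exact mem_take_of_getElem? hi (getElem?_rev (by omega))

theorem botS_sub {n k : ℕ} (hk : k ≤ ln n) :
    botS n k ⊆ ((Nat.digits 10 n).take k).toFinset := by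
  intro x hx
  rw [botS, Finset.mem_image] at hx
  obtain ⟨i, hi, rfl⟩ := hx
  rw [Finset.mem_range] at hi
  exact mem_take_of_getElem? hi (getElem?_dg (by omega))

theorem fl_val (x y : ℕ) : fl x y = if x + y = 0 then 1 else if x + y = 18 then 2 else 0 := by
  have e : fl x y = @Bool.rec (fun _ => ℕ) (@Bool.rec (fun _ => ℕ) 0 2 (Nat.beq (x + y) 18)) 1
    (Nat.beq (x + y) 0) := rfl
  rw [e]
  by_cases h1 : x + y = 0
  · rw [if_pos h1, h1]
    rfl
  · rw [if_neg h1, beq_false h1]
    by_cases h2 : x + y = 18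
    · rw [if_pos h2, h2]
      rfl
    · rw [if_neg h2, beq_false h2]

theorem bad_val (f' f : ℕ) (h : bad f' f = true) : f' = f ∧ f' ≠ 0 := by
  have e : bad f' f = @Bool.rec (fun _ => Bool) (Nat.beq f' f) false (Nat.beq f' 0) := rfl
  rw [e] at h
  by_cases h0 : f' = 0
  · rw [h0] at h
    exact Bool.noConfusion (h : false = true)
  · rw [beq_false h0] at h
    exact ⟨Nat.eq_of_beq_eq_true h, h0⟩

theorem pair_of_bad {x y x' y' : ℕ} (hx : x < 10) (hy : y < 10) (hx' : x' < 10) (hy' : y' < 10)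
    (h : bad (fl x' y') (fl x y) = true) :
    ∃ c : ℕ, (c = 0 ∨ c = 9) ∧ x = c ∧ y = c ∧ x' = c ∧ y' = c := by
  obtain ⟨h1, h2⟩ := bad_val _ _ h
  rw [fl_val x' y'] at h1 h2
  rw [fl_val x y] at h1
  by_cases g1 : x' + y' = 0
  · rw [if_pos g1] at h1
    by_cases g2 : x + y = 0
    · exact ⟨0, Or.inl rfl, by omega, by omega, by omega, by omega⟩
    · rw [if_neg g2] at h1
      by_cases g3 : x + y = 18
      · rw [if_pos g3] at h1
        omega
      · rw [if_neg g3] at h1
        omega
  · rw [if_neg g1] at h1 h2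
    by_cases g4 : x' + y' = 18
    · rw [if_pos g4] at h1
      by_cases g2 : x + y = 0
      · rw [if_pos g2] at h1
        omega
      · rw [if_neg g2] at h1
        by_cases g3 : x + y = 18
        · exact ⟨9, Or.inr rfl, by omega, by omega, by omega, by omega⟩
        · rw [if_neg g3] at h1
          omega
    · rw [if_neg g4] at h2
      exact absurd rfl h2

/-- Suppose that `n ≠ 2201` is not a decimal palindrome, but its cube is one. Then the product of
the number of distinct digits in the lower half of `n` and the number of distinct digits in the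
upper half of `n` is at least `10`, unless two consecutive pairs of mirrored digits of `n` are all
`0`, or all `9`. -/
theorem result (n : ℕ) (hn : (Nat.digits 10 n).reverse ≠ Nat.digits 10 n)
    (hc : (Nat.digits 10 (n ^ 3)).reverse = Nat.digits 10 (n ^ 3)) (h0 : n ≠ 2201) :
    10 ≤ ((Nat.digits 10 n).take (((Nat.digits 10 n).length + 1) / 2)).toFinset.card *
      ((Nat.digits 10 n).reverse.take (((Nat.digits 10 n).length + 1) / 2)).toFinset.card ∨
    ∃ i c : ℕ, (c = 0 ∨ c = 9) ∧ i + 1 < ((Nat.digits 10 n).length + 1) / 2 ∧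
      (Nat.digits 10 n)[i]? = some c ∧ (Nat.digits 10 n)[i + 1]? = some c ∧
      (Nat.digits 10 n).reverse[i]? = some c ∧ (Nat.digits 10 n).reverse[i + 1]? = some c := by
  by_contra hcon
  rw [not_or] at hcon
  obtain ⟨hcard, hrun⟩ := hcon
  have hfd : hf n = ((Nat.digits 10 n).length + 1) / 2 := rfl
  have htwo : 2 ≤ ln n := by
    by_contra h
    apply hn
    have h1 : (Nat.digits 10 n).length ≤ 1 := by
      have : (Nat.digits 10 n).length = ln n := rfl
      omega
    match hL : Nat.digits 10 n, h1 with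
    | [], _ => rfl
    | [a], _ => rfl
    | a :: b :: l, h1 => exact absurd h1 (by simp)
  have hne : n ≠ 0 := by
    rintro rfl
    have : ln 0 = 0 := by simp [ln]
    omega
  have hne3 : n ^ 3 ≠ 0 := pow_ne_zero 3 hne
  have a1 := pow_ln_le hne
  have a2 := lt_pow_ln n
  have b1 := pow_ln_le hne3
  have b2 := lt_pow_ln (n ^ 3)
  have c1 : ln (n ^ 3) - 1 < 3 * ln n := by
    have : 10 ^ (ln (n ^ 3) - 1) < 10 ^ (3 * ln n) := by
      calc 10 ^ (ln (n ^ 3) - 1) ≤ n ^ 3 := b1
        _ < (10 ^ ln n) ^ 3 := Nat.pow_lt_pow_left a2 (by norm_num)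
        _ = 10 ^ (3 * ln n) := by rw [← pow_mul, mul_comm]
    exact (Nat.pow_lt_pow_iff_right (by norm_num)).1 this
  have c2 : 3 * (ln n - 1) < ln (n ^ 3) := by
    have : 10 ^ (3 * (ln n - 1)) < 10 ^ ln (n ^ 3) := by
      calc 10 ^ (3 * (ln n - 1)) = (10 ^ (ln n - 1)) ^ 3 := by rw [← pow_mul, mul_comm]
        _ ≤ n ^ 3 := Nat.pow_le_pow_left a1 3
        _ < 10 ^ ln (n ^ 3) := b2
    exact (Nat.pow_lt_pow_iff_right (by norm_num)).1 this
  obtain ⟨s, hs3, hs⟩ : ∃ s, s < 3 ∧ ln (n ^ 3) + 2 = 3 * ln n + s :=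
    ⟨ln (n ^ 3) + 2 - 3 * ln n, by omega, by omega⟩
  have hhf : hf n ≤ ln n := by unfold hf; omega
  have hhf1 : 1 ≤ hf n := by unfold hf; omega
  have H : Hyp n s := by
    refine ⟨htwo, hs, fun i hi => pal_dg hc hi, rv_self_of_pal hc, ?_, ?_⟩
    · have h1 := Finset.card_le_card (topS_sub hhf)
      have h2 := Finset.card_le_card (botS_sub hhf)
      have h3 := Nat.mul_le_mul h1 h2
      rw [mul_comm] at hcard
      rw [← hfd] at hcard
      omega
    · intro i hi
      cases hb : bad (fl (dg n (ln n - 1 - (i + 1))) (dg n (i + 1)))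
        (fl (dg n (ln n - 1 - i)) (dg n i)) with
      | false => rfl
      | true =>
        exfalso
        obtain ⟨c, hc9, e1, e2, e3, e4⟩ := pair_of_bad (dg_lt _ _) (dg_lt _ _) (dg_lt _ _)
          (dg_lt _ _) hb
        apply hrun
        refine ⟨i, c, hc9, hi, ?_, ?_, ?_, ?_⟩
        · rw [getElem?_dg (by omega), e2]
        · rw [getElem?_dg (by omega), e4]
        · rw [getElem?_rev (by omega), e1]
        · rw [getElem?_rev (by omega), e3]
  have hint := interval hs (le_refl 1) (by omega : 1 ≤ ln n)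
  have hz : 2 * 1 - 2 + s = s := by omega
  rw [hz] at hint
  have hL := ln_cube H
  have hR : n ^ 3 / 10 ^ (ln (n ^ 3) - 1) = (n % 10) ^ 3 % 10 := by
    rw [top_digit (by omega)]
    have h2 := H.pal 0 (by omega)
    rw [Nat.sub_zero] at h2
    rw [← h2, dg, pow_zero, Nat.div_one, Nat.pow_mod]
  have hR1 : 1 ≤ n ^ 3 / 10 ^ (ln (n ^ 3) - 1) :=
    (Nat.one_le_div_iff (pow_pos (by norm_num) _)).2 b1
  rw [hR] at hint hR1
  have hx : n / 10 ^ (ln n - 1) < 10 := by
    rw [top_digit (by omega)]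
    exact dg_lt _ _
  have hx1 : 1 ≤ n / 10 ^ (ln n - 1) := (Nat.one_le_div_iff (pow_pos (by norm_num) _)).2 a1
  have hroot := roots_all hs3 hx (Nat.mod_lt n (by norm_num)) hR1 hint.1 hint.2 hx1
  have hfin := roots_ok H hroot (le_refl 1) hhf1 rfl (by rw [pow_one])
  rcases hfin with h | h
  · exact h0 h
  · exact hn (pal_of_rv_self h)

end Pool.Agent.Results.MP_cbfe41_nt.FewDigits
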