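import Pool.Agent.CP62.CpK
import Pool.Agent.CP62.CpL

/-!
The number of positive integers up to `X` whose cubes are decimal palindromes is at most a constant
times `X ^ (1 / 2 - δ)` for some `δ > 0`.
-/

namespace Pool.Agent.Results.MP_cbfe41_nt.SparseCubes

theorem result : ∃ δ C : ℝ, 0 < δ ∧ 0 < C ∧ ∀ X : ℕ, 1 ≤ X →
    (((Finset.Icc 1 X).filter fun n =>
      (Nat.digits 10 (n ^ 3)).reverse = Nat.digits 10 (n ^ 3)).card : ℝ) ≤
      C * (X : ℝ) ^ (1 / 2 - δ) :=
  Pool.Agent.CP62.final_of Pool.Agent.CP62.per_digit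

end Pool.Agent.Results.MP_cbfe41_nt.SparseCubes
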